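import Pool.Agent.Helper38.SD.Goals
import Pool.Agent.Helper60.TH.ETOW
import Pool.Agent.Helper80.TH.ELOG

/-! Packet SD-A_EX of project SD (MP_fc6b1e_nt): existence of the cyclotomic tower. -/

set_option autoImplicit false

namespace Pool.Agent.Helper28.SD

open NumberField Module
open Pool.Agent.Helper38.FD (Chr CutsOut)
open Pool.Agent.Helper38.SD (IsCyclo)
open Pool.Agent.Helper38.TH (IsTower)
open Pool.Agent.Helper60.TH (exists_cutsOut exists_roots eta eta_eq_one eq_zero_of_dvd toZ_eq_zero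
  val_succ)
open Pool.Agent.Helper65.TH (cyc_spec exists_cyc enough)

/-- an automorphism which fixes a primitive root of unity of order `p^m` -/
theorem cyc_dvd (p : ℕ) [Fact p.Prime] (K : Type) [Field K] [NumberField K]
    (g : AlgebraicClosure K ≃ₐ[K] AlgebraicClosure K) (m : ℕ) (ζ : AlgebraicClosure K)
    (hζ : IsPrimitiveRoot ζ (p ^ m)) (h1 : g ζ = ζ) :
    (p : ℤ_[p]) ^ m ∣ ((Pool.Agent.Helper65.TH.cyc p K g : ℤ_[p]ˣ) : ℤ_[p]) - 1 := by
  have hp : p.Prime := Fact.out
  have h2 := cyc_spec p K g m ζ hζ.pow_eq_one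
  rw [h1] at h2
  have h3 : (Pool.Agent.Helper65.TH.cyc p K g).val.toZModPow m = 1 := by
    have : NeZero (p ^ m) := ⟨(pow_pos hp.pos m).ne'⟩
    rcases Nat.eq_zero_or_pos m with h0 | h0
    · subst h0
      have : Subsingleton (ZMod (p ^ 0)) := by
        rw [pow_zero]
        infer_instance
      exact Subsingleton.elim _ _
    · have h4 : 1 < p ^ m := Nat.one_lt_pow h0.ne' hp.one_lt
      have h5 : ζ ^ 1 = ζ ^ ((Pool.Agent.Helper65.TH.cyc p K g).val.toZModPow m).val := by
        rw [pow_one]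
        exact h2
      have h6 := hζ.pow_inj h4 (ZMod.val_lt _) h5
      have : Fact (1 < p ^ m) := ⟨h4⟩
      apply ZMod.val_injective
      rw [ZMod.val_one, ← h6]
  rw [← toZ_eq_zero, map_sub, map_one, h3, sub_self]

/-- an automorphism which fixes all the roots of unity of `p`-power order -/
theorem cyc_eq_one (p : ℕ) [Fact p.Prime] (K : Type) [Field K] [NumberField K]
    (g : AlgebraicClosure K ≃ₐ[K] AlgebraicClosure K)
    (h : ∀ (m : ℕ) (ζ : AlgebraicClosure K), ζ ^ p ^ m = 1 → g ζ = ζ) :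
    Pool.Agent.Helper65.TH.cyc p K g = 1 := by
  apply Units.ext
  rw [Units.val_one, ← sub_eq_zero]
  refine eq_zero_of_dvd _ fun m => ?_
  obtain ⟨ζ, hζ⟩ := HasEnoughRootsOfUnity.exists_primitiveRoot (AlgebraicClosure K) (p ^ m)
  exact cyc_dvd p K g m ζ hζ (h m ζ hζ.pow_eq_one)

theorem a_ex : Pool.Agent.Helper38.SD.A_EX := by
  intro p _ K _ _
  have hp : p.Prime := Fact.out
  obtain ⟨l, hl1, hl2⟩ := Pool.Agent.Helper80.TH.e_log p
  obtain ⟨z, hz1, hz2⟩ := exists_roots (p := p)
  have hd : 0 < 2 * (p - 1) := by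
    have := hp.two_le
    omega
  have hp0 : (p : ℤ_[p]) ≠ 0 := Nat.cast_ne_zero.2 hp.ne_zero
  set G := AlgebraicClosure K ≃ₐ[K] AlgebraicClosure K with hG
  set cy : G →* ℤ_[p]ˣ := Pool.Agent.Helper65.TH.cyc p K with hcy
  set ell : G →* Multiplicative ℤ_[p] := l.comp cy with hell
  -- not all zero
  have hne : ∃ n, ∃ g : G, ¬ (p : ℤ_[p]) ^ (n + 1) ∣ Multiplicative.toAdd (ell g) := by
    obtain ⟨g, hg⟩ := exists_cyc p K (2 * (p - 1)) hd
    by_contra hcon
    push Not at hcon
    apply hg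
    apply hl1
    refine eq_zero_of_dvd _ fun n => ?_
    exact (pow_dvd_pow _ (Nat.le_succ n)).trans (hcon n g)
  classical
  set a := Nat.find hne with ha
  obtain ⟨g₀, hg₀⟩ := Nat.find_spec hne
  have hall : ∀ g : G, (p : ℤ_[p]) ^ a ∣ Multiplicative.toAdd (ell g) := by
    intro g
    rcases Nat.eq_zero_or_pos a with h0 | h0
    · rw [h0, pow_zero]
      exact one_dvd _
    · obtain ⟨m, hm⟩ : ∃ m, a = m + 1 := ⟨a - 1, by omega⟩
      have h1 := Nat.find_min hne (m := m) (by omega)
      push Not at h1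
      rw [hm]
      exact h1 g
  choose c' hc' using hall
  have hpa : (p : ℤ_[p]) ^ a ≠ 0 := pow_ne_zero _ hp0
  set c : G →* Multiplicative ℤ_[p] :=
    { toFun := fun g => Multiplicative.ofAdd (c' g)
      map_one' := by
        have h1 := hc' 1
        rw [map_one, toAdd_one] at h1
        have h2 : c' 1 = 0 := by
          rcases mul_eq_zero.1 h1.symm with h3 | h3
          · exact absurd h3 hpa
          · exact h3
        rw [h2]
        rfl
      map_mul' := by
        intro g h
        have h1 := hc' (g * h)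
        rw [map_mul, toAdd_mul, hc' g, hc' h, ← mul_add] at h1
        have h2 := mul_left_cancel₀ hpa h1
        rw [← h2]
        rfl } with hc
  have hcc : ∀ g, Multiplicative.toAdd (ell g) = (p : ℤ_[p]) ^ a * Multiplicative.toAdd (c g) :=
    fun g => hc' g
  refine ⟨eta p z hz2 c, ⟨⟨?_, ?_, ?_, ?_⟩, ?_⟩⟩
  · refine MonoidHom.ext fun g => ?_
    show eta p z hz2 c 0 g = 1
    rw [eta_eq_one, pow_zero]
    exact one_dvd _
  · intro h
    have h1 : eta p z hz2 c 1 g₀ = 1 := by
      rw [h]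
      rfl
    rw [eta_eq_one, pow_one] at h1
    apply hg₀
    rw [← ha, hcc, pow_succ]
    exact mul_dvd_mul_left _ h1
  · intro n
    refine MonoidHom.ext fun g => ?_
    show (z (n + 1) ^ ((Multiplicative.toAdd (c g)).toZModPow (n + 1)).val) ^ p =
      z n ^ ((Multiplicative.toAdd (c g)).toZModPow n).val
    rw [← pow_mul, mul_comm, pow_mul, hz1, val_succ n]
    exact pow_eq_pow_mod _ (hz2 n).pow_eq_one
  · intro n
    obtain ⟨m, hm⟩ := hl2 (a + n)
    obtain ⟨ζ, hζ⟩ := HasEnoughRootsOfUnity.exists_primitiveRoot (AlgebraicClosure K) (p ^ m)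
    have hint : IsIntegral K ζ := Algebra.IsIntegral.isIntegral ζ
    have hfd : FiniteDimensional K (IntermediateField.adjoin K {ζ}) :=
      IntermediateField.adjoin.finiteDimensional hint
    refine exists_cutsOut _ (IntermediateField.adjoin K {ζ}) fun g hg => ?_
    rw [eta_eq_one]
    have h1 : g ζ = ζ := hg ζ (IntermediateField.mem_adjoin_simple_self K ζ)
    have h5 := hm _ (cyc_dvd p K g m ζ hζ h1)
    have h6 : (p : ℤ_[p]) ^ a * (p : ℤ_[p]) ^ n ∣
        (p : ℤ_[p]) ^ a * Multiplicative.toAdd (c g) := by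
      rw [← hcc, ← pow_add]
      exact h5
    exact (mul_dvd_mul_iff_left hpa).1 h6
  · intro n g hg
    rw [eta_eq_one]
    have h1 : cy g = 1 := cyc_eq_one p K g hg
    have h2 : Multiplicative.toAdd (ell g) = 0 := by
      rw [hell, MonoidHom.comp_apply, h1, map_one, toAdd_one]
    rw [hcc] at h2
    rcases mul_eq_zero.1 h2 with h3 | h3
    · exact absurd h3 hpa
    · rw [h3]
      exact dvd_zero _

end Pool.Agent.Helper28.SD
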