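import Pool.Agent.Helper71.SD.Goals

/-!
Packet HFUN of `MP_dcced1_gt`: a height function on the expanded grid.
-/

namespace Pool.Agent.Helper71.SD.HFUN

open Pool.Agent.Helper71.AHtpy SimpleGraph

/-- the distance of `t i` to the interval `[127 y, 127 y + 127]` -/
def tm (y t : ℤ) : ℕ := (max (127 * y - t) (t - 127 * y - 127)).toNat

/-- the distance of `t` to the box of `y` -/
def dist (y t : Fin 60 → ℤ) : ℕ := ∑ i, tm (y i) (t i)

theorem dist_lip (y t t' : Fin 60 → ℤ) (h : (grid (Fin 60)).Adj t t') :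
    dist y t ≤ dist y t' + 1 := by
  obtain ⟨i, hi, hj⟩ := grid_adj_iff.mp h
  unfold dist
  rw [← Finset.add_sum_erase Finset.univ (fun i => tm (y i) (t i)) (Finset.mem_univ i),
    ← Finset.add_sum_erase Finset.univ (fun i => tm (y i) (t' i)) (Finset.mem_univ i)]
  have h1 : ∑ j ∈ Finset.univ.erase i, tm (y j) (t j) = ∑ j ∈ Finset.univ.erase i, tm (y j) (t' j) := by
    refine Finset.sum_congr rfl fun j hj' => ?_
    rw [hj j (Finset.ne_of_mem_erase hj')]
  have h2 : tm (y i) (t i) ≤ tm (y i) (t' i) + 1 := by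
    unfold tm
    rcases hi with hi | hi <;> omega
  omega

theorem hfun : S_HFUN := by
  intro h hlip hne
  classical
  obtain ⟨y0, hy0⟩ := hne
  let D : (Fin 60 → ℤ) → Set ℕ := fun t => {m | ∃ y, h y ≤ 3 ∧ dist y t = m}
  have hD : ∀ t, (D t).Nonempty := fun t => ⟨_, y0, hy0, rfl⟩
  have hlipZ : ∀ x y : Fin 60 → ℤ, (h x : ℤ) ≤ h y + ∑ i, |x i - y i| := by
    intro x y
    refine lipschitz_grid (fun x => (h x : ℤ)) ?_ x y
    intro a b hab
    have := hlip a b hab
    show (h a : ℤ) ≤ h b + 1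
    omega
  refine ⟨fun t => min 67 (sInf (D t)), ?_, ?_, ?_, ?_⟩
  · intro t t' hadj
    obtain ⟨y, hy, hyt⟩ := Nat.sInf_mem (hD t')
    have h1 : sInf (D t) ≤ dist y t := Nat.sInf_le ⟨y, hy, rfl⟩
    have h2 := dist_lip y t t' hadj
    simp only
    omega
  · intro t
    exact min_le_left _ _
  · intro y t hbox hy
    have h1 : dist y t = 0 := by
      unfold dist
      refine Finset.sum_eq_zero fun i _ => ?_
      have := hbox i
      unfold tm
      omega
    have h2 : sInf (D t) ≤ 0 := Nat.sInf_le ⟨y, hy, h1⟩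
    simp only
    omega
  · intro y t hbox hy
    obtain ⟨y', hy', hyt⟩ := Nat.sInf_mem (hD t)
    have h1 := hlipZ y y'
    have h2 : ∃ i, 2 ≤ |y i - y' i| := by
      by_contra hcon
      push Not at hcon
      have h3 : ∑ i, |y i - y' i| ≤ ∑ _i : Fin 60, (1 : ℤ) :=
        Finset.sum_le_sum fun i _ => by have := hcon i; omega
      simp at h3
      omega
    obtain ⟨i, hi⟩ := h2
    have h3 : 127 ≤ tm (y' i) (t i) := by
      have hb := hbox i
      unfold tm
      rcases le_abs.mp hi with hi | hi <;> omega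
    have h4 : tm (y' i) (t i) ≤ dist y' t :=
      Finset.single_le_sum (f := fun i => tm (y' i) (t i)) (fun _ _ => Nat.zero_le _)
        (Finset.mem_univ i)
    simp only
    omega

end Pool.Agent.Helper71.SD.HFUN
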