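import Pool.Agent.Helper71.SD.Goals

/-!
Packet SPHG of `MP_dcced1_gt`: the sphere is a graph map.
-/

namespace Pool.Agent.Helper71.SD.SPHG

open Pool.Agent.Helper71.AHtpy SimpleGraph

/-- the outward distance of one coordinate -/
def tm (x : ℤ) : ℕ := (max (-x) (x - 1)).toNat

theorem tm_le_dd (z : Fin 60 → ℤ) (i : Fin 60) : tm (z i) ≤ dd z :=
  Finset.le_sup (f := fun i => (max (-z i) (z i - 1)).toNat) (Finset.mem_univ i)

theorem dd_le_iff (z : Fin 60 → ℤ) (m : ℕ) : dd z ≤ m ↔ ∀ i, tm (z i) ≤ m := by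
  unfold dd tm
  rw [Finset.sup_le_iff]
  simp

/-- two neighbours of the grid, differing in the coordinate `i` -/
structure Nb (z z' : Fin 60 → ℤ) (i : Fin 60) : Prop where
  hi : z' i = z i + 1 ∨ z i = z' i + 1
  hj : ∀ j, j ≠ i → z j = z' j

theorem Nb.symm {z z' : Fin 60 → ℤ} {i : Fin 60} (h : Nb z z' i) : Nb z' z i :=
  ⟨h.hi.symm, fun j hj => (h.hj j hj).symm⟩

theorem Nb.adj {z z' : Fin 60 → ℤ} {i : Fin 60} (h : Nb z z' i) : (grid (Fin 60)).Adj z z' :=
  grid_adj_iff.mpr ⟨i, h.hi, h.hj⟩

theorem Nb.dd_le {z z' : Fin 60 → ℤ} {i : Fin 60} (h : Nb z z' i) :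
    dd z' ≤ max (dd z) (tm (z' i)) := by
  rw [dd_le_iff]
  intro j
  by_cases hj : j = i
  · rw [hj]; exact le_max_right _ _
  · rw [← h.hj j hj]; exact (tm_le_dd z j).trans (le_max_left _ _)

theorem Nb.tm_le {z z' : Fin 60 → ℤ} {i : Fin 60} (h : Nb z z' i) :
    tm (z' i) ≤ tm (z i) + 1 := by
  rcases h.hi with h | h <;> (unfold tm; omega)

theorem Nb.dd_succ {z z' : Fin 60 → ℤ} {i : Fin 60} (h : Nb z z' i) : dd z' ≤ dd z + 1 := by
  have h1 := h.dd_le
  have h2 := h.tm_le
  have h3 := tm_le_dd z i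
  omega

/-- the closure changes only between `0` and `1` -/
theorem Nb.clp_eq {z z' : Fin 60 → ℤ} {i : Fin 60} (h : Nb z z' i)
    (h0 : (1 ≤ z i ↔ 1 ≤ z' i)) : clp z = clp z' := by
  ext j
  unfold clp
  simp only [Finset.mem_filter, Finset.mem_univ, true_and]
  by_cases hj : j = i
  · rw [hj]; exact h0
  · rw [h.hj j hj]

theorem Nb.clp_adj {z z' : Fin 60 → ℤ} {i : Fin 60} (h : Nb z z' i)
    (h0 : ¬ (1 ≤ z i ↔ 1 ≤ z' i)) : (cube E).Adj (clp z) (clp z') := by
  refine ⟨i, ?_⟩
  ext j
  rw [mem_tog]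
  unfold clp
  simp only [Finset.mem_filter, Finset.mem_univ, true_and]
  by_cases hj : j = i
  · subst hj
    simp only [ne_eq, not_true_eq_false, and_false, true_and, false_or]
    tauto
  · rw [h.hj j hj]
    simp [hj]

theorem Nb.pat_eq {z z' : Fin 60 → ℤ} {i : Fin 60} (h : Nb z z' i)
    (h0 : (z i ≤ -1 ↔ z' i ≤ -1)) (h1 : (z i ≤ 1 ↔ z' i ≤ 1)) : pat z = pat z' := by
  funext j
  unfold pat
  by_cases hj : j = i
  · rw [hj]; simp only [h0, h1]
  · rw [h.hj j hj]

variable {V : Type} {G : SimpleGraph V}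

theorem near_sph (hX : S_XC2) (A : Amb G)
    (hC : IsGraphMap (cube E) (Susp G 6) fun S => pt 6 (A.b (xc S)) (hgt S)) (L : ℕ)
    (Φ : ℕ → C0 × (E → Fin 3) → V) (c : V) (hΦ0 : Φ 0 = fun p => A.b p.1)
    (hΦ : ∀ l, IsGraphMap shell G (Φ l)) (hΦs : ∀ l i, Near G (Φ l i) (Φ (l + 1) i))
    (hΦL : ∀ l, L ≤ l → ∀ i, Φ l i = c) {z z' : Fin 60 → ℤ} {i : Fin 60} (h : Nb z z' i)
    (hd : dd z ≤ dd z') : Near (Susp G 6) (sph L Φ z) (sph L Φ z') := by
  have hlow : ∀ w : Fin 60 → ℤ, dd w ≤ 1 → sph L Φ w = pt 6 (A.b (xc (clp w))) (hgt (clp w)) := by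
    intro w hw
    have h6 := hX.2.2.2.2.2.1 (clp w)
    unfold sph
    have e1 : dd w - 1 = 0 := by omega
    have e2 : min (hgt (clp w)) (6 - (dd w - (L + 1))) = hgt (clp w) := by omega
    rw [e1, e2, hΦ0]
  have hs := h.dd_succ
  by_cases hle : dd z' ≤ 1
  · rw [hlow z (by omega), hlow z' hle]
    by_cases h0 : (1 ≤ z i ↔ 1 ≤ z' i)
    · rw [h.clp_eq h0]; exact Near.refl _ _
    · exact hC _ _ (h.clp_adj h0)
  -- both distances are positive
  have hz6 := hX.2.2.2.2.2.1 (clp z)
  have hz6' := hX.2.2.2.2.2.1 (clp z')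
  unfold sph
  rw [near_pt_iff (by omega) (by omega)]
  by_cases h0 : (1 ≤ z i ↔ 1 ≤ z' i)
  · have hS := h.clp_eq h0
    by_cases hdd : dd z = dd z'
    · -- same set, same distance
      refine ⟨by rw [hS, hdd]; omega, ?_⟩
      by_cases hL : L ≤ dd z - 1
      · right; right; right; right; left
        rw [hΦL _ hL, hΦL _ (by omega)]
      · by_cases hnp : NP (clp z)
        · have hnp' : NP (clp z') := hS ▸ hnp
          have hn : Near G (Φ (dd z - 1) (xc (clp z), pat z))
              (Φ (dd z - 1) (xc (clp z'), pat z')) := by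
            refine (hΦ _).near ?_
            by_cases he : (xc (clp z), pat z) = (xc (clp z'), pat z')
            · exact Or.inl he
            · exact Or.inr ⟨he, z, z', h.adj, by omega, by omega, hnp, hnp', rfl, rfl⟩
          rw [← hdd]
          rcases hn with hn | hn
          · right; right; right; right; left; exact hn
          · right; right; right; right; right
            exact ⟨by rw [hS], hn⟩
        · have : ¬ (0 < hgt (clp z) ∧ hgt (clp z) < 6) := hnp
          omega
    · -- the distance grows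
      have hdd' : dd z' = dd z + 1 := by omega
      have h1 := h.dd_le
      have h2 := h.tm_le
      have h3 := tm_le_dd z i
      have ht : tm (z i) = dd z := by omega
      have ht' : tm (z' i) = dd z + 1 := by omega
      have hp : pat z = pat z' := by
        unfold tm at ht ht'
        rcases h.hi with hi | hi
        · exact h.pat_eq (by omega) (by omega)
        · exact h.pat_eq (by omega) (by omega)
      refine ⟨by rw [hS, hdd']; omega, ?_⟩
      rw [hdd', ← hS, ← hp]
      by_cases hL : L + 1 ≤ dd z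
      · right; right; right; right; left
        rw [hΦL _ (by omega), hΦL _ (by omega)]
      · have e : dd z + 1 - 1 = dd z - 1 + 1 := by omega
        rw [e]
        rcases hΦs (dd z - 1) (xc (clp z), pat z) with hn | hn
        · right; right; right; right; left; exact hn
        · right; right; right; right; right
          exact ⟨by omega, hn⟩
  · -- different sets
    have hadj := h.clp_adj h0
    have hz : (z i = 0 ∧ z' i = 1) ∨ (z i = 1 ∧ z' i = 0) := by
      rcases h.hi with hi | hi <;> omega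
    have hp : pat z = pat z' := h.pat_eq (by omega) (by omega)
    have hdd : dd z = dd z' := by
      have h1 := h.dd_le
      have ht' : tm (z' i) = 0 := by
        unfold tm
        omega
      omega
    have hh1 := hX.2.2.2.1 _ _ hadj
    have hh2 := hX.2.2.2.1 _ _ hadj.symm
    refine ⟨by rw [hdd]; omega, ?_⟩
    by_cases hL : L ≤ dd z - 1
    · right; right; right; right; left
      rw [hΦL _ hL, hΦL _ (by omega)]
    by_cases hnp : NP (clp z)
    · by_cases hnp' : NP (clp z')
      · by_cases hh : hgt (clp z) = hgt (clp z')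
        · have hn : Near G (Φ (dd z - 1) (xc (clp z), pat z))
              (Φ (dd z - 1) (xc (clp z'), pat z')) := by
            refine (hΦ _).near ?_
            by_cases he : (xc (clp z), pat z) = (xc (clp z'), pat z')
            · exact Or.inl he
            · exact Or.inr ⟨he, z, z', h.adj, by omega, by omega, hnp, hnp', rfl, rfl⟩
          rw [← hdd]
          rcases hn with hn | hn
          · right; right; right; right; left; exact hn
          · right; right; right; right; right
            exact ⟨by rw [hh], hn⟩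
        · have hx := hX.2.2.1 _ _ hadj hnp hnp' hh
          right; right; right; right; left
          rw [← hdd, ← hx, ← hp]
      · have : ¬ (0 < hgt (clp z') ∧ hgt (clp z') < 6) := hnp'
        omega
    · have : ¬ (0 < hgt (clp z) ∧ hgt (clp z) < 6) := hnp
      omega

theorem sphg : S_CUB → S_XC1 → S_XC2 → S_SPHG := by
  intro hCUB _ hX V G A L Φ c hΦ0 hΦ hΦs hΦL
  have hC := (hCUB V G A).1
  refine ⟨?_, ?_⟩
  · refine isGraphMap_grid ?_
    intro z z' i hi hj
    have h : Nb z z' i := ⟨Or.inl hi, hj⟩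
    rcases le_total (dd z) (dd z') with hd | hd
    · exact near_sph hX A hC L Φ c hΦ0 hΦ hΦs hΦL h hd
    · exact (near_sph hX A hC L Φ c hΦ0 hΦ hΦs hΦL h.symm hd).symm
  · intro z hz
    unfold sph
    rw [pt_eq_iff (by omega) (by omega)]
    exact ⟨by omega, by omega⟩

end Pool.Agent.Helper71.SD.SPHG
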